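import Pool.Agent.Q50.EX.Spec
import Pool.Agent.Q50.SR.Per

/-!
# Jobs J6 and J7: similitudes and the commutant on a tensor product
-/

set_option linter.unusedSectionVars false
set_option maxHeartbeats 4000000
set_option synthInstance.maxHeartbeats 400000

namespace Pool.Agent.Q237.EX

open Module Pool.Agent.Q50.LR Pool.Agent.Q50.SR Pool.Agent.Q50.EX Kronecker

variable {K : Type} [Field K] [Algebra K ℂ]

/-- the components of the logarithmic derivative of a matrix with linearly independent entries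
generate the algebra of all matrices -/
theorem core_gen [IsAlgClosed K] {P : Type} [Fintype P] [DecidableEq P] (x y : Matrix P P ℂ)
    (hxy : x * y = 1)
    (hlin : ∀ a : Matrix P P K, ∑ i, ∑ j, algebraMap K ℂ (a i j) * x i j = 0 → a = 0)
    (B : Subalgebra K (Matrix P P K))
    (hB : ∀ (δ : Derivation K ℂ ℂ) (ν : ℂ →ₗ[K] K), ((x.map δ) * y).map ν ∈ B) : B = ⊤ := by
  classical
  let e : P ≃ Fin (Fintype.card P) := Fintype.equivFin P
  have hyx : y * x = 1 := mul_eq_one_comm.1 hxy
  have h1 : x.submatrix e.symm e.symm * y.submatrix e.symm e.symm = 1 := by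
    rw [Matrix.submatrix_mul_equiv, hxy, Matrix.submatrix_one_equiv]
  have h2 : y.submatrix e.symm e.symm * x.submatrix e.symm e.symm = 1 := by
    rw [Matrix.submatrix_mul_equiv, hyx, Matrix.submatrix_one_equiv]
  let x' : GL (Fin (Fintype.card P)) ℂ := ⟨x.submatrix e.symm e.symm, y.submatrix e.symm e.symm, h1, h2⟩
  let B' : Subalgebra K (Matrix (Fin (Fintype.card P)) (Fin (Fintype.card P)) K) :=
    B.map (Matrix.reindexAlgEquiv K K e).toAlgHom
  have hx' : (x' : Matrix (Fin (Fintype.card P)) (Fin (Fintype.card P)) ℂ) ∈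
      ext (Subalgebra.toSubmodule (⊤ : Subalgebra K (Matrix (Fin (Fintype.card P)) (Fin (Fintype.card P)) K))) := by
    intro ν
    trivial
  have hl : ∀ a : Matrix (Fin (Fintype.card P)) (Fin (Fintype.card P)) K,
      pr a (x' : Matrix (Fin (Fintype.card P)) (Fin (Fintype.card P)) ℂ) = 0 →
      ∀ c ∈ (⊤ : Subalgebra K (Matrix (Fin (Fintype.card P)) (Fin (Fintype.card P)) K)), pr a (mc K c) = 0 := by
    intro a ha c _
    have h3 : a.submatrix e e = 0 := by
      apply hlin
      rw [← ha]
      unfold pr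
      rw [← Equiv.sum_comp e]
      refine Finset.sum_congr rfl fun i _ => ?_
      rw [← Equiv.sum_comp e]
      refine Finset.sum_congr rfl fun j _ => ?_
      change algebraMap K ℂ (a (e i) (e j)) * x i j = algebraMap K ℂ (a (e i) (e j)) * x (e.symm (e i)) (e.symm (e j))
      rw [Equiv.symm_apply_apply, Equiv.symm_apply_apply]
    have h4 : a = 0 := by
      ext i j
      have := congrFun (congrFun h3 (e.symm i)) (e.symm j)
      simpa using this
    rw [h4]
    unfold pr
    simp
  have hb : ∀ (δ : Derivation K ℂ ℂ) (ν : ℂ →ₗ[K] K), (ld δ x').map ν ∈ B' := by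
    intro δ ν
    refine ⟨((x.map δ) * y).map ν, hB δ ν, ?_⟩
    have h3 : ld δ x' = ((x.map δ) * y).submatrix e.symm e.symm := by
      exact Matrix.submatrix_mul_equiv (x.map δ) y e.symm e.symm e.symm
    rw [h3]
    rfl
  have h5 := core hx' hl hb
  rw [eq_top_iff]
  intro a _
  obtain ⟨b, hb, hb'⟩ := h5 (show (Matrix.reindexAlgEquiv K K e) a ∈ _ from trivial)
  have : b = a := (Matrix.reindexAlgEquiv K K e).injective hb'
  rw [← this]
  exact hb

theorem sep (z : ℂ) (hz : ∀ ν : ℂ →ₗ[K] K, ν z = 0) : z = 0 :=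
  (Module.forall_dual_apply_eq_zero_iff K z).1 hz

/-- JOB J7 -/
theorem s7 : S7 := by
  intro K _ _ _ I J _ _ _ _ M N M' N' h h' hind X hX
  classical
  have hxy : (M ⊗ₖ M') * (N ⊗ₖ N') = 1 := by
    rw [← Matrix.mul_kronecker_mul, h, h', Matrix.one_kronecker_one]
  have hlin : ∀ a : Matrix (I × J) (I × J) K,
      ∑ i, ∑ j, algebraMap K ℂ (a i j) * (M ⊗ₖ M') i j = 0 → a = 0 := by
    intro a ha
    have h1 := Fintype.linearIndependent_iff.1 hind
      (fun s => a (s.1.1, s.2.1) (s.1.2, s.2.2)) (by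
        rw [← ha]
        simp only [Fintype.sum_prod_type, Matrix.kroneckerMap_apply, Algebra.smul_def]
        refine Finset.sum_congr rfl fun i _ => ?_
        rw [Finset.sum_comm])
    ext i j
    exact h1 ((i.1, j.1), (i.2, j.2))
  have hB : Subalgebra.centralizer K {X} = ⊤ := by
    refine core_gen (M ⊗ₖ M') (N ⊗ₖ N') hxy hlin _ fun δ ν => ?_
    rw [Subalgebra.mem_centralizer_iff]
    intro Y hY
    rw [Set.mem_singleton_iff] at hY
    subst hY
    have h2 : ((M ⊗ₖ M').map δ) * (N ⊗ₖ N') = (lg δ M N) ⊗ₖ (1 : Matrix J J ℂ) + (1 : Matrix I I ℂ) ⊗ₖ (lg δ M' N') := by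
      have h3 : (M ⊗ₖ M').map δ = (M.map δ) ⊗ₖ M' + M ⊗ₖ (M'.map δ) := by
        ext ⟨i, j⟩ ⟨i', j'⟩
        change δ (M i i' * M' j j') = δ (M i i') * M' j j' + M i i' * δ (M' j j')
        rw [Derivation.leibniz, smul_eq_mul, smul_eq_mul]
        ring
      rw [h3, add_mul, ← Matrix.mul_kronecker_mul, ← Matrix.mul_kronecker_mul, h, h']
      rfl
    have h4 : (((M ⊗ₖ M').map δ) * (N ⊗ₖ N')).map ν =
        ((lg δ M N).map ν) ⊗ₖ (1 : Matrix J J K) + (1 : Matrix I I K) ⊗ₖ ((lg δ M' N').map ν) := by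
      rw [h2]
      ext ⟨i, j⟩ ⟨i', j'⟩
      change ν (lg δ M N i i' * (1 : Matrix J J ℂ) j j' + (1 : Matrix I I ℂ) i i' * lg δ M' N' j j') =
        ν (lg δ M N i i') * (1 : Matrix J J K) j j' + (1 : Matrix I I K) i i' * ν (lg δ M' N' j j')
      rw [map_add]
      congr 1
      · by_cases hj : j = j'
        · subst hj; simp
        · rw [Matrix.one_apply_ne hj, Matrix.one_apply_ne hj]; simp
      · by_cases hi : i = i'
        · subst hi; simp
        · rw [Matrix.one_apply_ne hi, Matrix.one_apply_ne hi]; simp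
    rw [h4]
    exact hX δ ν
  -- commutes with everything
  have hcomm : ∀ a : Matrix (I × J) (I × J) K, X * a = a * X := by
    intro a
    have h1 : a ∈ Subalgebra.centralizer K {X} := by rw [hB]; trivial
    rw [Subalgebra.mem_centralizer_iff] at h1
    exact h1 X rfl
  have h2 : X ∈ Set.range (Matrix.scalar (I × J) : K → _) := by
    rw [Matrix.mem_range_scalar_iff_commute_single']
    intro i j
    exact (hcomm _).symm
  obtain ⟨t, ht⟩ := h2
  refine ⟨t, ?_⟩
  rw [← ht]
  ext i j
  simp [Matrix.scalar_apply, Matrix.diagonal_apply, Matrix.one_apply]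

/-- JOB J6 -/
theorem s6 : S6 := by
  intro K _ _ _ I _ _ M N hMN Q hQ hdet hsim
  classical
  have hNM : N * M = 1 := mul_eq_one_comm.1 hMN
  rcases isEmpty_or_nonempty I with hI | hI
  · refine ⟨Q, Q, 0, hQ, hdet, ?_⟩
    ext i
    exact isEmptyElim i
  obtain ⟨QC, hQC⟩ : ∃ QC : Matrix I I ℂ, QC = Q.map (algebraMap K ℂ) := ⟨_, rfl⟩
  obtain ⟨G, hG⟩ : ∃ G : Matrix I I ℂ, G = M.transpose * QC * M := ⟨_, rfl⟩
  have hQne : ∃ k l, Q k l ≠ 0 := by
    by_contra hcon
    push Not at hcon
    have : Q = 0 := by ext i j; exact hcon i j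
    rw [this, Matrix.det_zero] at hdet
    exact hdet rfl
  obtain ⟨k, l, hkl⟩ := hQne
  have hδM : ∀ δ : Derivation K ℂ ℂ, M.map δ = lg δ M N * M := by
    intro δ
    unfold lg
    rw [mul_assoc, hNM, mul_one]
  have hS : ∀ δ : Derivation K ℂ ℂ, ∃ τ : ℂ, (lg δ M N).transpose * QC + QC * lg δ M N = τ • QC := by
    intro δ
    obtain ⟨S, hSd⟩ : ∃ S : Matrix I I ℂ, S = (lg δ M N).transpose * QC + QC * lg δ M N := ⟨_, rfl⟩
    have hcomp : ∀ ν : ℂ →ₗ[K] K, S.map ν =
        ((lg δ M N).map ν).transpose * Q + Q * (lg δ M N).map ν := by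
      intro ν
      ext i j
      rw [hSd, hQC, Matrix.map_apply, Matrix.add_apply, Matrix.add_apply, Matrix.mul_apply, Matrix.mul_apply,
        Matrix.mul_apply, Matrix.mul_apply, map_add, map_sum, map_sum]
      congr 1
      · refine Finset.sum_congr rfl fun m _ => ?_
        rw [Matrix.transpose_apply, Matrix.transpose_apply, Matrix.map_apply, Matrix.map_apply, mul_comm,
          ← Algebra.smul_def, map_smul, smul_eq_mul, mul_comm]
      · refine Finset.sum_congr rfl fun m _ => ?_
        rw [Matrix.map_apply, Matrix.map_apply, ← Algebra.smul_def, map_smul, smul_eq_mul]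
    have hprop : ∀ i j, S i j * algebraMap K ℂ (Q k l) = S k l * algebraMap K ℂ (Q i j) := by
      intro i j
      rw [← sub_eq_zero]
      refine sep (K := K) _ fun ν => ?_
      obtain ⟨t, ht⟩ := hsim δ ν
      rw [← hcomp ν] at ht
      have h1 : ∀ i j, ν (S i j) = t * Q i j := fun i j => congrFun (congrFun ht i) j
      rw [map_sub, mul_comm, ← Algebra.smul_def, map_smul, mul_comm (S k l), ← Algebra.smul_def, map_smul, h1, h1,
        smul_eq_mul, smul_eq_mul]
      ring
    have hkl' : algebraMap K ℂ (Q k l) ≠ 0 := by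
      rw [Ne, map_eq_zero]
      exact hkl
    refine ⟨S k l / algebraMap K ℂ (Q k l), ?_⟩
    rw [← hSd]
    ext i j
    rw [Matrix.smul_apply, smul_eq_mul, hQC, Matrix.map_apply, div_mul_eq_mul_div, eq_div_iff hkl']
    exact hprop i j
  have hδG : ∀ δ : Derivation K ℂ ℂ, ∃ τ : ℂ, ∀ i j, δ (G i j) = τ * G i j := by
    intro δ
    obtain ⟨τ, hτ⟩ := hS δ
    refine ⟨τ, fun i j => ?_⟩
    have h1 : G.map δ = (M.map δ).transpose * QC * M + M.transpose * QC * (M.map δ) := by
      ext i j
      rw [hG, hQC]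
      simp only [Matrix.map_apply, Matrix.mul_apply, Matrix.add_apply, Matrix.transpose_apply, map_sum,
        Derivation.leibniz, smul_eq_mul, Finset.sum_mul, ← Finset.sum_add_distrib, Finset.mul_sum,
        Derivation.map_algebraMap]
      refine Finset.sum_congr rfl fun a _ => Finset.sum_congr rfl fun b _ => ?_
      ring
    have h2 : G.map δ = τ • G := by
      rw [h1, hδM, Matrix.transpose_mul]
      calc M.transpose * (lg δ M N).transpose * QC * M + M.transpose * QC * (lg δ M N * M)
          = M.transpose * ((lg δ M N).transpose * QC + QC * lg δ M N) * M := by noncomm_ring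
        _ = τ • G := by rw [hτ, hG, Matrix.mul_smul, Matrix.smul_mul]
    exact congrFun (congrFun h2 i) j
  have hGne : ∃ p q, G p q ≠ 0 := by
    by_contra hcon
    push Not at hcon
    have h0 : G = 0 := by ext i j; exact hcon i j
    have h1 : QC = 0 := by
      have h2 : N.transpose * G * N = QC := by
        have h3 : N.transpose * M.transpose = 1 := by
          rw [← Matrix.transpose_mul, hMN, Matrix.transpose_one]
        calc N.transpose * G * N = (N.transpose * M.transpose) * QC * (M * N) := by rw [hG]; noncomm_ring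
          _ = QC := by rw [h3, hMN, one_mul, mul_one]
      rw [← h2, h0]
      simp
    have h2 := congrFun (congrFun h1 k) l
    rw [hQC, Matrix.map_apply] at h2
    exact hkl ((map_eq_zero _).1 h2)
  obtain ⟨p, q, hpq⟩ := hGne
  have hrat : ∀ i j, ∃ r, algebraMap K ℂ r = G i j / G p q := by
    intro i j
    refine const_of_der fun δ => ?_
    obtain ⟨τ, hτ⟩ := hδG δ
    have h1 : δ (G i j / G p q * G p q) = δ (G i j) := by rw [div_mul_cancel₀ _ hpq]
    rw [Derivation.leibniz, smul_eq_mul, smul_eq_mul, hτ, hτ] at h1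
    have h2 : G p q * δ (G i j / G p q) = 0 := by
      have h3 : G i j / G p q * (τ * G p q) = τ * G i j := by
        field_simp
      linear_combination h1 - h3
    exact (mul_eq_zero.1 h2).resolve_left hpq
  choose Q' hQ' using hrat
  refine ⟨Q, Matrix.of Q', G p q, hQ, hdet, ?_⟩
  rw [← hQC, ← hG]
  ext i j
  rw [Matrix.smul_apply, Matrix.map_apply, Matrix.of_apply, hQ', smul_eq_mul, mul_div_cancel₀ _ hpq]

end Pool.Agent.Q237.EX
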