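import Pool.Agent.Q237.EX.Core

/-!
# Job J1: independent minors and irreducibility on the exterior power
-/

set_option linter.unusedSectionVars false
set_option maxHeartbeats 4000000
set_option synthInstance.maxHeartbeats 400000

namespace Pool.Agent.Q237.EX

open Module Pool.Agent.Q50.LR Pool.Agent.Q50.SR Pool.Agent.Q50.EX Set.powersetCard

/-- the derivative of a product -/
theorem der_prod {K : Type} [Field K] [Algebra K ℂ] (δ : Derivation K ℂ ℂ) {ι : Type} [DecidableEq ι]
    (s : Finset ι) (f : ι → ℂ) : δ (∏ i ∈ s, f i) = ∑ i ∈ s, δ (f i) * ∏ j ∈ s.erase i, f j := by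
  induction s using Finset.induction_on with
  | empty => simp
  | insert a s ha ih =>
    rw [Finset.prod_insert ha, Derivation.leibniz, ih, Finset.sum_insert ha, Finset.erase_insert ha,
      smul_eq_mul, smul_eq_mul, Finset.mul_sum, add_comm]
    congr 1
    · ring
    · refine Finset.sum_congr rfl fun i hi => ?_
      have hne : i ≠ a := fun h => ha (h ▸ hi)
      rw [Finset.erase_insert_of_ne hne.symm, Finset.prod_insert (fun h => ha (Finset.mem_of_mem_erase h))]
      ring

/-- the derivative of a determinant -/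
theorem der_det {K : Type} [Field K] [Algebra K ℂ] (δ : Derivation K ℂ ℂ) {n : ℕ}
    (A : Matrix (Fin n) (Fin n) ℂ) :
    δ A.det = ∑ i, (A.updateRow i (fun j => δ (A i j))).det := by
  rw [← Matrix.det_transpose, Matrix.det_apply', map_sum]
  have h1 : ∀ i, (A.updateRow i (fun j => δ (A i j))).det =
      ∑ σ : Equiv.Perm (Fin n), ((Equiv.Perm.sign σ : ℤ) : ℂ) * (δ (A i (σ i)) * ∏ j ∈ Finset.univ.erase i, A j (σ j)) := by
    intro i
    rw [← Matrix.det_transpose, Matrix.det_apply']
    refine Finset.sum_congr rfl fun σ _ => ?_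
    congr 1
    rw [← Finset.mul_prod_erase _ _ (Finset.mem_univ i)]
    congr 1
    · rw [Matrix.transpose_apply, Matrix.updateRow_self]
    · refine Finset.prod_congr rfl fun j hj => ?_
      rw [Matrix.transpose_apply, Matrix.updateRow_ne (Finset.ne_of_mem_erase hj)]
  rw [Finset.sum_congr rfl fun i _ => h1 i, Finset.sum_comm]
  refine Finset.sum_congr rfl fun σ _ => ?_
  rw [← Finset.mul_sum]
  have h2 : ((Equiv.Perm.sign σ : ℤ) : ℂ) = algebraMap K ℂ ((Equiv.Perm.sign σ : ℤ) : K) := by
    rw [map_intCast]
  rw [h2, ← Algebra.smul_def, Derivation.map_smul, Algebra.smul_def, der_prod]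
  rfl

section comp

variable (F : Type) [CommRing F] (I : Type) [Fintype I] [LinearOrder I] (k : ℕ)

/-- the basis of the exterior power -/
noncomputable def bE : Basis (Set.powersetCard I k) F (⋀[F]^k (I → F)) :=
  (Pi.basisFun F I).exteriorPower k

variable {F I k}

/-- the embedding of an index set -/
noncomputable def em (s : Set.powersetCard I k) : Fin k ↪o I := ofFinEmbEquiv.symm s

theorem bE_apply (s : Set.powersetCard I k) :
    bE F I k s = exteriorPower.ιMulti F k (fun i => Pi.single (em s i) 1) := by
  unfold bE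
  rw [exteriorPower.basis_apply]
  unfold exteriorPower.ιMulti_family
  congr 1
  funext i
  simp only [Function.comp_apply, Pi.basisFun_apply]
  rfl

theorem bE_repr (v : Fin k → I → F) (s : Set.powersetCard I k) :
    (bE F I k).repr (exteriorPower.ιMulti F k v) s = (Matrix.of fun i j => v i (em s j)).det := by
  unfold bE
  rw [exteriorPower.basis_repr_apply, exteriorPower.ιMultiDual_apply_ιMulti]
  rfl

/-- the derivation on the exterior power -/
noncomputable def Dk (z : Matrix I I F) : Module.End F (⋀[F]^k (I → F)) :=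
  (D (Matrix.toLin' z)).restrict fun _ h => D_mem _ h

theorem Dk_ιMulti (z : Matrix I I F) (v : Fin k → I → F) :
    Dk z (exteriorPower.ιMulti F k v) =
      ∑ t, exteriorPower.ιMulti F k (Function.update v t (z.mulVec (v t))) := by
  apply Subtype.ext
  have h1 : ((Dk z (exteriorPower.ιMulti F k v) : ⋀[F]^k (I → F)) : ExteriorAlgebra F (I → F)) =
      D (Matrix.toLin' z) (ExteriorAlgebra.ιMulti F k v) := rfl
  rw [h1, D_ιMulti, AddSubmonoidClass.coe_finset_sum]
  rfl

open Classical in
/-- matrix of the derivation -/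
noncomputable def DM (k : ℕ) (z : Matrix I I F) : Matrix (Set.powersetCard I k) (Set.powersetCard I k) F :=
  LinearMap.toMatrix (bE F I k) (bE F I k) (Dk z)

open Classical in
/-- compound matrix -/
noncomputable def CM (k : ℕ) (z : Matrix I I F) : Matrix (Set.powersetCard I k) (Set.powersetCard I k) F :=
  LinearMap.toMatrix (bE F I k) (bE F I k) (exteriorPower.map k (Matrix.toLin' z))

theorem CM_apply (z : Matrix I I F) (s t : Set.powersetCard I k) :
    CM k z s t = (z.submatrix (em s) (em t)).det := by
  unfold CM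
  rw [LinearMap.toMatrix_apply, bE_apply, exteriorPower.map_apply_ιMulti, bE_repr, ← Matrix.det_transpose]
  congr 1
  ext i j
  simp [Matrix.toLin'_apply]

theorem DM_apply (z : Matrix I I F) (s t : Set.powersetCard I k) :
    DM k z s t = ∑ i, ((Matrix.of fun i j => (Pi.single (em t i) (1 : F) : I → F) (em s j)).updateRow i
      (fun j => z (em s j) (em t i))).det := by
  unfold DM
  rw [LinearMap.toMatrix_apply, bE_apply, Dk_ιMulti, map_sum, Finsupp.finset_sum_apply]
  refine Finset.sum_congr rfl fun i _ => ?_
  rw [bE_repr]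
  congr 1
  ext a j
  rw [Matrix.of_apply]
  by_cases h : a = i
  · subst h
    rw [Function.update_self, Matrix.updateRow_self]
    simp
  · rw [Function.update_of_ne h, Matrix.updateRow_ne h, Matrix.of_apply]

open Classical in
theorem CM_mul (z w : Matrix I I F) : CM k (z * w) = CM k z * CM k w := by
  unfold CM
  rw [Matrix.toLin'_mul, exteriorPower.map_comp, LinearMap.toMatrix_comp _ (bE F I k)]

open Classical in
theorem CM_one : CM k (1 : Matrix I I F) = 1 := by
  unfold CM
  rw [Matrix.toLin'_one, exteriorPower.map_id, LinearMap.toMatrix_id]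

open Classical in
theorem DM_mul_CM (z w : Matrix I I F) (s t : Set.powersetCard I k) :
    (DM k z * CM k w) s t = ∑ i, ((w.submatrix (em s) (em t)).transpose.updateRow i
      (fun j => (z * w) (em s j) (em t i))).det := by
  unfold DM CM
  rw [← LinearMap.toMatrix_comp, LinearMap.toMatrix_apply, LinearMap.comp_apply, bE_apply,
    exteriorPower.map_apply_ιMulti, Dk_ιMulti, map_sum, Finsupp.finset_sum_apply]
  refine Finset.sum_congr rfl fun i _ => ?_
  rw [bE_repr]
  congr 1
  ext a j
  rw [Matrix.of_apply]
  by_cases h : a = i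
  · subst h
    rw [Function.update_self, Matrix.updateRow_self, Function.comp_apply, Matrix.toLin'_apply,
      Matrix.mulVec_mulVec]
    simp
  · rw [Function.update_of_ne h, Matrix.updateRow_ne h, Matrix.transpose_apply, Matrix.submatrix_apply,
      Function.comp_apply, Matrix.toLin'_apply]
    simp

end comp

section der

variable {K : Type} [Field K] [Algebra K ℂ] {I : Type} [Fintype I] [LinearOrder I] {k : ℕ}

open Classical in
/-- the derivative of the compound matrix -/
theorem dCM (δ : Derivation K ℂ ℂ) (M Z : Matrix I I ℂ) (h : M.map δ = Z * M) :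
    (CM k M).map δ = DM k Z * CM k M := by
  ext s t
  rw [DM_mul_CM, Matrix.map_apply, CM_apply, ← Matrix.det_transpose, der_det]
  refine Finset.sum_congr rfl fun i _ => ?_
  congr 1
  congr 1
  funext j
  have h1 := congrFun (congrFun h (em s j)) (em t i)
  exact h1

/-- the components -/
theorem DM_map (Z : Matrix I I ℂ) (ν : ℂ →ₗ[K] K) : (DM k Z).map ν = DM k (Z.map ν) := by
  ext s t
  rw [Matrix.map_apply, DM_apply, DM_apply, map_sum]
  refine Finset.sum_congr rfl fun i _ => ?_
  rw [← Matrix.cramer_transpose_apply, ← Matrix.cramer_transpose_apply, Matrix.cramer_eq_adjugate_mulVec,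
    Matrix.cramer_eq_adjugate_mulVec, Matrix.mulVec, Matrix.mulVec, dotProduct, dotProduct, map_sum]
  have h1 : (Matrix.of fun i j => (Pi.single (em t i) (1 : ℂ) : I → ℂ) (em s j)).transpose =
      (algebraMap K ℂ).mapMatrix (Matrix.of fun i j => (Pi.single (em t i) (1 : K) : I → K) (em s j)).transpose := by
    ext a b
    rw [RingHom.mapMatrix_apply, Matrix.map_apply, Matrix.transpose_apply, Matrix.transpose_apply,
      Matrix.of_apply, Matrix.of_apply, Pi.single_apply, Pi.single_apply]
    split_ifs <;> simp
  refine Finset.sum_congr rfl fun j _ => ?_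
  rw [h1, ← RingHom.map_adjugate, RingHom.mapMatrix_apply, Matrix.map_apply, ← Algebra.smul_def, map_smul,
    smul_eq_mul]
  rfl

/-- JOB J1 -/
theorem s1 : S1 := by
  intro K _ _ _ I _ _ M N hMN k hind U hU hst
  classical
  have hNM : N * M = 1 := mul_eq_one_comm.1 hMN
  have hxy : CM k M * CM k N = 1 := by rw [← CM_mul, hMN, CM_one]
  have hlin : ∀ a : Matrix (Set.powersetCard I k) (Set.powersetCard I k) K,
      ∑ i, ∑ j, algebraMap K ℂ (a i j) * CM k M i j = 0 → a = 0 := by
    intro a ha
    have hind2 : LinearIndependent K fun s : (Set.powersetCard I k) × (Set.powersetCard I k) =>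
        (M.submatrix (em s.1) (em s.2)).det :=
      hind.comp (fun s : (Set.powersetCard I k) × (Set.powersetCard I k) => (em s.1, em s.2)) (by
        intro s s' h
        have h1 := congrArg Prod.fst h
        have h2 := congrArg Prod.snd h
        exact Prod.ext (ofFinEmbEquiv.symm.injective h1) (ofFinEmbEquiv.symm.injective h2))
    have h1 := Fintype.linearIndependent_iff.1 hind2 (fun s => a s.1 s.2) (by
      rw [← ha, Fintype.sum_prod_type]
      refine Finset.sum_congr rfl fun i _ => Finset.sum_congr rfl fun j _ => ?_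
      rw [CM_apply, Algebra.smul_def])
    ext i j
    exact h1 (i, j)
  -- coordinates
  let L : (Set.powersetCard I k → K) →ₗ[K] ExteriorAlgebra K (I → K) :=
    (Submodule.subtype _).comp ((bE K I k).equivFun.symm : (Set.powersetCard I k → K) →ₗ[K] ⋀[K]^k (I → K))
  have hLD : ∀ (z : Matrix I I K) (v : Set.powersetCard I k → K),
      D (Matrix.toLin' z) (L v) = L ((DM k z).mulVec v) := by
    intro z v
    have h1 : D (Matrix.toLin' z) (L v) = ((Dk z ((bE K I k).equivFun.symm v) : ⋀[K]^k (I → K)) : ExteriorAlgebra K (I → K)) := rfl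
    rw [h1]
    change _ = (((bE K I k).equivFun.symm ((DM k z).mulVec v) : ⋀[K]^k (I → K)) : ExteriorAlgebra K (I → K))
    congr 1
    rw [LinearEquiv.eq_symm_apply]
    have h2 := LinearMap.toMatrix_mulVec_repr (bE K I k) (bE K I k) (Dk z) ((bE K I k).equivFun.symm v)
    have h3 : ⇑((bE K I k).repr ((bE K I k).equivFun.symm v)) = v := by
      have := (bE K I k).equivFun.apply_symm_apply v
      exact this
    rw [h3] at h2
    exact h2.symm
  let U' : Submodule K (Set.powersetCard I k → K) := U.comap L
  have hUL : ∀ ξ ∈ U, ∃ v ∈ U', L v = ξ := by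
    intro ξ hξ
    have h1 : L ((bE K I k).equivFun ⟨ξ, hU hξ⟩) = ξ := by
      change (((bE K I k).equivFun.symm ((bE K I k).equivFun ⟨ξ, hU hξ⟩) : ⋀[K]^k (I → K)) : ExteriorAlgebra K (I → K)) = ξ
      rw [LinearEquiv.symm_apply_apply]
    refine ⟨(bE K I k).equivFun ⟨ξ, hU hξ⟩, ?_, h1⟩
    change L _ ∈ U
    rw [h1]
    exact hξ
  let B : Subalgebra K (Matrix (Set.powersetCard I k) (Set.powersetCard I k) K) :=
    { carrier := {a | ∀ v ∈ U', a.mulVec v ∈ U'}
      mul_mem' := by
        intro a b ha hb v hv
        rw [← Matrix.mulVec_mulVec]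
        exact ha _ (hb v hv)
      add_mem' := by
        intro a b ha hb v hv
        rw [Matrix.add_mulVec]
        exact U'.add_mem (ha v hv) (hb v hv)
      algebraMap_mem' := by
        intro r v hv
        rw [Algebra.algebraMap_eq_smul_one, Matrix.smul_mulVec, Matrix.one_mulVec]
        exact U'.smul_mem r hv }
  have hB : B = ⊤ := by
    refine core_gen (CM k M) (CM k N) hxy hlin B fun δ ν => ?_
    have hδ : M.map δ = lg δ M N * M := by
      unfold lg
      rw [mul_assoc, hNM, mul_one]
    have h1 : ((CM k M).map δ) * CM k N = DM k (lg δ M N) := by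
      rw [dCM δ M _ hδ, mul_assoc, hxy, mul_one]
    rw [h1, DM_map]
    intro v hv
    change L _ ∈ U
    rw [← hLD]
    exact hst δ ν _ hv
  by_cases h0 : U = ⊥
  · exact Or.inl h0
  · right
    refine le_antisymm hU fun η hη => ?_
    obtain ⟨ξ, hξ, hξ0⟩ := (Submodule.ne_bot_iff _).1 h0
    obtain ⟨v, hv, hvξ⟩ := hUL ξ hξ
    have hv0 : ∃ i, v i ≠ 0 := by
      by_contra hcon
      push Not at hcon
      have : v = 0 := funext hcon
      rw [this, map_zero] at hvξ
      exact hξ0 hvξ.symm
    obtain ⟨i, hi⟩ := hv0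
    obtain ⟨w, hw⟩ : ∃ w, w = (bE K I k).equivFun ⟨η, hη⟩ := ⟨_, rfl⟩
    have hwη : L w = η := by
      rw [hw]
      change (((bE K I k).equivFun.symm ((bE K I k).equivFun ⟨η, hη⟩) : ⋀[K]^k (I → K)) : ExteriorAlgebra K (I → K)) = η
      rw [LinearEquiv.symm_apply_apply]
    have h2 : (Matrix.of fun a b => if b = i then w a * (v i)⁻¹ else 0) ∈ B := by rw [hB]; trivial
    have h3 := h2 v hv
    have h4 : (Matrix.of fun a b => if b = i then w a * (v i)⁻¹ else 0).mulVec v = w := by
      funext a
      rw [Matrix.mulVec, dotProduct]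
      simp only [Matrix.of_apply, ite_mul, zero_mul, Finset.sum_ite_eq', Finset.mem_univ, if_true]
      rw [mul_assoc, inv_mul_cancel₀ hi, mul_one]
    rw [h4] at h3
    have h5 : L w ∈ U := h3
    rw [hwη] at h5
    exact h5

end der

end Pool.Agent.Q237.EX
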